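import Mathlib
import Pool.Agent.Helper206.Berg.Geo

/-!
# Exponentially decaying Bergman kernels of a metric which is not real analytic

On `L = O(1) → ℙ¹` there is a smooth Hermitian metric `h` with positive curvature, not real
analytic, such that the Bergman kernels of `(L^k, h^k)` (with respect to the Fubini–Study volume
form) decay exponentially off the diagonal. With `Φ(v)` the squared norm on `O(-1)`,
`Φ(a, b) = (|a|² + |b|²) exp (exp (- |a|² / |b|²) / 1000)`, which is flat, but not locally
constant up to an analytic factor, at the point `[1 : 0]`.
-/

noncomputable section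

namespace Pool.Agent.Results.MP_6c43ae_an.NonAnalyticDecay

open Pool.Agent.Helper206.Berg

/-- There is a smooth, positively curved Hermitian metric `h` on the line bundle `L = O(1)` over
`ℙ¹` which is not real analytic, but whose Bergman kernels (of `(L^k, h^k)`, `k ≥ 1`, with the
Fubini–Study volume form on `ℙ¹`) satisfy the exponential off-diagonal bound. -/
theorem result :
    ∃ h : HermitianMetric, h.IsPositive ∧ ¬ h.IsRealAnalytic ∧ h.HasExponentialDecay :=
  ⟨hB, isPositive_hB, not_isRealAnalytic_hB, hasExponentialDecay_hB⟩

end Pool.Agent.Results.MP_6c43ae_an.NonAnalyticDecay
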